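import Mathlib
import Pool.Agent.V11293.E70.IntCase
import Pool.Agent.V11293.E70.PrimeCase

/-!
Maximal upper densities of sets avoiding the values of a polynomial are determined by local
obstructions.
-/

namespace Pool.Agent.Results.MP_e70ed2_nt.LocalGlobal

open Polynomial Filter

/-- the upper density of a set of natural numbers -/
noncomputable def upperDensity (A : Set ℕ) : ℝ :=
  limsup (fun N : ℕ => ((A ∩ Set.Icc 1 N).ncard : ℝ) / N) atTop

/-- `(A - A) ∩ X ⊆ {0}` -/
def Avoids (A : Set ℕ) (X : Set ℤ) : Prop := ∀ a ∈ A, ∀ b ∈ A, (a : ℤ) - b ∈ X → (a : ℤ) - b = 0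

/-- the largest upper density of a set of positive integers whose difference set avoids `X` -/
noncomputable def mu (X : Set ℤ) : ℝ :=
  sSup {d : ℝ | ∃ A : Set ℕ, (∀ a ∈ A, 1 ≤ a) ∧ Avoids A X ∧ d = upperDensity A}

/-- the residue classes modulo `m` that contain a nonzero element of `X` -/
def classes (X : Set ℤ) (m : ℕ) : Set (ZMod m) := {c | ∃ x ∈ X, x ≠ 0 ∧ (x : ZMod m) = c}

/-- the largest size of a set of residues modulo `m` whose difference set avoids `classes X m` -/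
noncomputable def dX (X : Set ℤ) (m : ℕ) : ℕ :=
  sSup {k : ℕ | ∃ S : Finset (ZMod m), (∀ a ∈ S, ∀ b ∈ S, a - b ∉ classes X m) ∧ S.card = k}

lemma dX_bdd (X : Set ℤ) (m : ℕ) (hm : 1 ≤ m) :
    BddAbove {k : ℕ | ∃ S : Finset (ZMod m), (∀ a ∈ S, ∀ b ∈ S, a - b ∉ classes X m) ∧ S.card = k} := by
  have : NeZero m := ⟨by omega⟩
  refine ⟨m, ?_⟩
  rintro k ⟨S, _, rfl⟩
  calc S.card ≤ Fintype.card (ZMod m) := Finset.card_le_univ S
    _ = m := ZMod.card m

lemma le_dX (X : Set ℤ) (m : ℕ) (hm : 1 ≤ m) (S : Finset (ZMod m))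
    (hS : ∀ a ∈ S, ∀ b ∈ S, a - b ∉ classes X m) : S.card ≤ dX X m :=
  le_csSup (dX_bdd X m hm) ⟨S, hS, rfl⟩

lemma dX_le (X : Set ℤ) (m : ℕ) (hm : 1 ≤ m) : dX X m ≤ m := by
  have : NeZero m := ⟨by omega⟩
  unfold dX
  apply csSup_le
  · exact ⟨0, ∅, by simp, by simp⟩
  rintro k ⟨S, _, rfl⟩
  calc S.card ≤ Fintype.card (ZMod m) := Finset.card_le_univ S
    _ = m := ZMod.card m

lemma dX_mem (X : Set ℤ) (m : ℕ) (hm : 1 ≤ m) :
    ∃ S : Finset (ZMod m), (∀ a ∈ S, ∀ b ∈ S, a - b ∉ classes X m) ∧ S.card = dX X m := by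
  have h : {k : ℕ | ∃ S : Finset (ZMod m), (∀ a ∈ S, ∀ b ∈ S, a - b ∉ classes X m) ∧ S.card = k}.Nonempty :=
    ⟨0, ∅, by simp, by simp⟩
  exact Nat.sSup_mem h (dX_bdd X m hm)

lemma ratio_le_one (A : Set ℕ) (N : ℕ) : ((A ∩ Set.Icc 1 N).ncard : ℝ) / N ≤ 1 := by
  have h1 : (A ∩ Set.Icc 1 N).ncard ≤ N := by
    calc (A ∩ Set.Icc 1 N).ncard ≤ (Set.Icc 1 N).ncard := Set.ncard_le_ncard Set.inter_subset_right (Set.finite_Icc _ _)
      _ = N := by
        rw [← Finset.coe_Icc, Set.ncard_coe_finset, Nat.card_Icc]; omega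
  rcases Nat.eq_zero_or_pos N with h | h
  · subst h; simp
  · rw [div_le_one (by exact_mod_cast h)]
    exact_mod_cast h1

lemma ratio_nonneg (A : Set ℕ) (N : ℕ) : 0 ≤ ((A ∩ Set.Icc 1 N).ncard : ℝ) / N := by positivity

lemma ratio_bdd (A : Set ℕ) : IsBoundedUnder (· ≤ ·) atTop (fun N : ℕ => ((A ∩ Set.Icc 1 N).ncard : ℝ) / N) :=
  isBoundedUnder_of ⟨1, ratio_le_one A⟩

lemma ratio_cobdd (A : Set ℕ) : IsCoboundedUnder (· ≤ ·) atTop (fun N : ℕ => ((A ∩ Set.Icc 1 N).ncard : ℝ) / N) :=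
  IsBoundedUnder.isCoboundedUnder_le (isBoundedUnder_of ⟨0, ratio_nonneg A⟩)

lemma upperDensity_le_one (A : Set ℕ) : upperDensity A ≤ 1 :=
  limsup_le_of_le (ratio_cobdd A) (Eventually.of_forall (ratio_le_one A))

lemma le_mu (X : Set ℤ) (A : Set ℕ) (h1 : ∀ a ∈ A, 1 ≤ a) (h2 : Avoids A X) : upperDensity A ≤ mu X := by
  apply le_csSup
  · refine ⟨1, ?_⟩
    rintro d ⟨A, _, _, rfl⟩
    exact upperDensity_le_one A
  · exact ⟨A, h1, h2, rfl⟩

/-- unions of residue classes -/
lemma lower (X : Set ℤ) (m : ℕ) (hm : 1 ≤ m) : (dX X m : ℝ) / m ≤ mu X := by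
  classical
  have : NeZero m := ⟨by omega⟩
  have hm0 : (0 : ℝ) < m := by exact_mod_cast hm
  obtain ⟨S, hS, hScard⟩ := dX_mem X m hm
  set A : Set ℕ := {n | 1 ≤ n ∧ ((n : ZMod m) ∈ S)} with hA
  have hav : Avoids A X := by
    intro a ha b hb hab
    by_contra h0
    apply hS _ ha.2 _ hb.2
    refine ⟨_, hab, h0, ?_⟩
    push_cast; rfl
  refine le_trans ?_ (le_mu X A (fun a ha => ha.1) hav)
  -- the counting
  have hcount : ∀ k : ℕ, S.card * k ≤ (A ∩ Set.Icc 1 (m * k)).ncard := by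
    intro k
    have hinj : Set.InjOn (fun x : ZMod m × ℕ => (if x.1.val = 0 then m else x.1.val) + m * x.2) ((S ×ˢ Finset.range k : Finset (ZMod m × ℕ)) : Set (ZMod m × ℕ)) := by
      rintro ⟨a, i⟩ _ ⟨b, j⟩ _ h
      simp only at h
      have ha := ZMod.val_lt a
      have hb := ZMod.val_lt b
      have key : ∀ (a : ZMod m) (i : ℕ), ((((if a.val = 0 then m else a.val) + m * i : ℕ)) : ZMod m) = a := by
        intro a i
        push_cast
        split_ifs with h0
        · have : a = 0 := (ZMod.val_eq_zero a).1 h0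
          simp [this]
        · simp
      have h1 : a = b := by
        have h2 := congrArg (fun z : ℕ => (z : ZMod m)) h
        rwa [key, key] at h2
      subst h1
      have h2 : m * i = m * j := by omega
      have h3 : i = j := Nat.eq_of_mul_eq_mul_left hm h2
      rw [h3]
    have hsub : ((S ×ˢ Finset.range k).image (fun x : ZMod m × ℕ => (if x.1.val = 0 then m else x.1.val) + m * x.2) : Set ℕ) ⊆
        A ∩ Set.Icc 1 (m * k) := by
      intro y hy
      rw [Finset.mem_coe, Finset.mem_image] at hy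
      obtain ⟨⟨a, i⟩, hai, rfl⟩ := hy
      rw [Finset.mem_product, Finset.mem_range] at hai
      simp only at hai ⊢
      have ha := ZMod.val_lt a
      have h1 : 1 ≤ (if a.val = 0 then m else a.val) := by split_ifs <;> omega
      have h2 : (if a.val = 0 then m else a.val) ≤ m := by split_ifs <;> omega
      refine ⟨⟨by omega, ?_⟩, by omega, ?_⟩
      · have : ((((if a.val = 0 then m else a.val) + m * i : ℕ)) : ZMod m) = a := by
          push_cast
          split_ifs with h0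
          · have : a = 0 := (ZMod.val_eq_zero a).1 h0
            simp [this]
          · simp
        rw [this]; exact hai.1
      · calc (if a.val = 0 then m else a.val) + m * i ≤ m + m * i := by omega
          _ = m * (i + 1) := by ring
          _ ≤ m * k := Nat.mul_le_mul_left _ hai.2
    calc S.card * k = (S ×ˢ Finset.range k).card := by rw [Finset.card_product, Finset.card_range]
      _ = ((S ×ˢ Finset.range k).image (fun x : ZMod m × ℕ => (if x.1.val = 0 then m else x.1.val) + m * x.2)).card :=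
          (Finset.card_image_of_injOn hinj).symm
      _ = (((S ×ˢ Finset.range k).image (fun x : ZMod m × ℕ => (if x.1.val = 0 then m else x.1.val) + m * x.2) : Finset ℕ) : Set ℕ).ncard :=
          (Set.ncard_coe_finset _).symm
      _ ≤ _ := Set.ncard_le_ncard hsub ((Set.finite_Icc _ _).subset Set.inter_subset_right)
  apply le_limsup_of_frequently_le _ (ratio_bdd A)
  rw [frequently_atTop]
  intro N
  refine ⟨m * (N + 1), ?_, ?_⟩
  · calc N ≤ 1 * (N + 1) := by omega
      _ ≤ m * (N + 1) := Nat.mul_le_mul_right _ hm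
  · have h1 := hcount (N + 1)
    rw [← hScard]
    have hN : (0 : ℝ) < ((m * (N + 1) : ℕ) : ℝ) := by positivity
    rw [div_le_div_iff₀ hm0 hN]
    have h2 : ((S.card * (N + 1) : ℕ) : ℝ) ≤ ((A ∩ Set.Icc 1 (m * (N + 1))).ncard : ℝ) := by exact_mod_cast h1
    have h3 := mul_le_mul_of_nonneg_right h2 hm0.le
    push_cast at h3 ⊢
    linarith

lemma sup_bdd (X : Set ℤ) : BddAbove (Set.range fun m : ℕ+ => (dX X m : ℝ) / m) := by
  refine ⟨1, ?_⟩
  rintro _ ⟨m, rfl⟩
  have h0 : (0 : ℝ) < (m : ℕ) := by exact_mod_cast m.pos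
  simp only
  rw [div_le_one h0]
  exact_mod_cast dX_le X m m.pos

theorem mu_eq (X : Set ℤ) (hX : Pool.Agent.V11293.E70.LocRich X) : mu X = ⨆ m : ℕ+, (dX X m : ℝ) / m := by
  apply le_antisymm
  · apply csSup_le
    · exact ⟨_, ∅, by simp, by intro a ha; exact absurd ha (Set.notMem_empty a), rfl⟩
    rintro d ⟨A, _, hA, rfl⟩
    by_contra hcon
    push Not at hcon
    obtain ⟨δ, hδ1, hδ2⟩ := exists_between hcon
    have hfr : ∃ᶠ N in atTop, δ ≤ ((A ∩ Set.Icc 1 N).ncard : ℝ) / N :=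
      (frequently_lt_of_lt_limsup (ratio_cobdd A) hδ2).mono (fun N h => h.le)
    obtain ⟨q, hq, S, hS, hScard⟩ := Pool.Agent.V11293.E70.upper_abstract X hX A hA δ hfr
      ((δ - ⨆ m : ℕ+, (dX X m : ℝ) / m) / 2) (by linarith)
    have h1 : S.card ≤ dX X q := le_dX X q hq S (by
      rintro a ha b hb ⟨x, hx, hx0, hxc⟩
      exact hS a ha b hb x hx hx0 hxc)
    have h2 : (dX X q : ℝ) / q ≤ ⨆ m : ℕ+, (dX X m : ℝ) / m := le_ciSup (sup_bdd X) ⟨q, hq⟩
    have hq0 : (0 : ℝ) < q := by exact_mod_cast hq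
    have h3 : (S.card : ℝ) ≤ dX X q := by exact_mod_cast h1
    rw [div_le_iff₀ hq0] at h2
    nlinarith
  · apply ciSup_le
    intro m
    exact lower X m m.pos

/-- **Local-to-global principle.** For every nonzero integer polynomial `h`, the largest upper
density of a set whose differences avoid the nonzero values of `h` at the integers is the
supremum of the local densities `d_X(m)/m`; and the same for the values of `h` at the primes. -/
theorem result (h : ℤ[X]) (_hh : h ≠ 0) :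
    mu {x | ∃ n : ℤ, x = h.eval n} = ⨆ m : ℕ+, (dX {x | ∃ n : ℤ, x = h.eval n} m : ℝ) / m ∧
    mu {x | ∃ p : ℕ, p.Prime ∧ x = h.eval (p : ℤ)} =
      ⨆ m : ℕ+, (dX {x | ∃ p : ℕ, p.Prime ∧ x = h.eval (p : ℤ)} m : ℝ) / m := by
  have hrange : {x | ∃ n : ℤ, x = h.eval n} = Set.range fun n : ℤ => h.eval n := by
    ext x; simp only [Set.mem_ofPred_eq, Set.mem_range, eq_comm]
  constructor
  · rw [hrange]
    apply mu_eq
    rcases Nat.eq_zero_or_pos h.natDegree with h0 | h0
    · apply Pool.Agent.V11293.E70.bdd_locRich _ (h.coeff 0).natAbs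
      rintro _ ⟨n, rfl⟩
      simp only
      rw [eq_C_of_natDegree_eq_zero h0, eval_C]
      simp
    · exact Pool.Agent.V11293.E70.int_locRich h h0
  · apply mu_eq
    rcases Nat.eq_zero_or_pos h.natDegree with h0 | h0
    · apply Pool.Agent.V11293.E70.bdd_locRich _ (h.coeff 0).natAbs
      rintro _ ⟨n, _, rfl⟩
      rw [eq_C_of_natDegree_eq_zero h0, eval_C]
      simp
    · exact Pool.Agent.V11293.E70.prime_locRich h h0

end Pool.Agent.Results.MP_e70ed2_nt.LocalGlobal
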